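import Pool.Agent.N728.QG.Def
import Pool.Agent.N82.QL.FLB

/-!
# FLB: the fundamental lemma of the sieve for several linear forms (project QG of helper728)

By helper273, after the template `Pool/Agent/N82/QL/FLB.lean`.
-/

set_option autoImplicit false

namespace Pool.Agent.N273.QG

open Finset Pool.Agent.N728.QL Pool.Agent.N728.QG
open Pool.Agent.N82.QL (prod_split VW_split fac_pos one_le_prod_real
  abs_prod_sub_one roots_card roots_exists exp_le_aux)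

noncomputable section

section forms

variable {ι : Type} [Fintype ι] [DecidableEq ι]

/-- the condition at `p` -/
def Cd (z : ℕ) (α β : ι → ℤ) (Sb : Finset ι) (p : ℕ) (s : ℤ) : Prop :=
  ∃ i, (p ≤ z ∨ i ∈ Sb) ∧ (p : ℤ) ∣ α i * s + β i

open Classical in
/-- the classes -/
def Om (z : ℕ) (α β : ι → ℤ) (Sb : Finset ι) (p : ℕ) : Finset ℕ :=
  (range p).filter (fun s : ℕ => Cd z α β Sb p (s : ℤ))

open Classical in
/-- classes of `T` -/
def NT (α β : ι → ℤ) (T : Finset ι) (p : ℕ) : Finset ℕ :=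
  (range p).filter (fun s : ℕ => ∃ i ∈ T, (p : ℤ) ∣ α i * (s : ℤ) + β i)

omit [Fintype ι] [DecidableEq ι] in
lemma Cd_congr {z : ℕ} {α β : ι → ℤ} {Sb : Finset ι} {p : ℕ} {t t' : ℤ}
    (h : (p : ℤ) ∣ t - t') : Cd z α β Sb p t ↔ Cd z α β Sb p t' := by
  have e : ∀ i, ((p : ℤ) ∣ α i * t + β i ↔ (p : ℤ) ∣ α i * t' + β i) := by
    intro i
    have : α i * t + β i = α i * t' + β i + α i * (t - t') := by ring
    rw [this]
    exact Int.dvd_add_left (Dvd.dvd.mul_left h _)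
  simp only [Cd, e]

omit [Fintype ι] [DecidableEq ι] in
lemma not_mem_Om {z : ℕ} {α β : ι → ℤ} {Sb : Finset ι} {p : ℕ}
    (hp : 0 < p) (t : ℤ) : (t % p).toNat ∉ Om z α β Sb p ↔ ¬ Cd z α β Sb p t := by
  classical
  have hp' : (0 : ℤ) < p := by exact_mod_cast hp
  have h0 : 0 ≤ t % p := Int.emod_nonneg _ hp'.ne'
  have h1 : ((t % p).toNat : ℤ) = t % p := Int.toNat_of_nonneg h0
  have h2 : (t % p).toNat < p := by
    have := Int.emod_lt_of_pos t hp'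
    omega
  have h3 : (p : ℤ) ∣ ((t % p).toNat : ℤ) - t := by
    rw [h1, Int.emod_def]
    exact ⟨-(t / p), by ring⟩
  rw [Om, mem_filter, mem_range, Cd_congr h3, not_and]
  exact ⟨fun h => h h2, fun h _ => h⟩

omit [Fintype ι] [DecidableEq ι] in
lemma NT_card_le {α β : ι → ℤ} (T : Finset ι) {p : ℕ} (hp : p.Prime)
    (h : ∀ i, ¬ ((p : ℤ) ∣ α i ∧ (p : ℤ) ∣ β i)) : (NT α β T p).card ≤ T.card := by
  classical
  have h1 : NT α β T p ⊆ T.biUnion (fun i => (range p).filter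
      (fun s : ℕ => (p : ℤ) ∣ α i * ((s : ℤ) + 0) + β i)) := by
    intro s hs
    rw [NT, mem_filter] at hs
    obtain ⟨h2, i, hi, h3⟩ := hs
    rw [mem_biUnion]
    exact ⟨i, hi, mem_filter.2 ⟨h2, by rwa [add_zero]⟩⟩
  refine (card_le_card h1).trans (card_biUnion_le.trans ?_)
  calc ∑ i ∈ T, _ ≤ ∑ _i ∈ T, 1 := Finset.sum_le_sum fun i _ => roots_card hp _ _ _ (h i)
    _ = T.card := by simp

lemma le_NT_card {α β : ι → ℤ} (T : Finset ι) {p : ℕ} (hp : p.Prime)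
    (hD : ¬ (p : ℤ) ∣ Dg α β) : T.card ≤ (NT α β T p).card := by
  classical
  have hx : ∀ i, ¬ (p : ℤ) ∣ α i := by
    intro i hi
    apply hD
    exact Dvd.dvd.mul_right (hi.trans (Finset.dvd_prod_of_mem α (mem_univ i))) _
  have hd : ∀ i j, i ≠ j → ¬ (p : ℤ) ∣ (α i * β j - α j * β i) := by
    intro i j hij h
    apply hD
    refine Dvd.dvd.mul_left (h.trans ?_) _
    exact Finset.dvd_prod_of_mem (fun ij : ι × ι => α ij.1 * β ij.2 - α ij.2 * β ij.1)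
      (mem_offDiag.2 ⟨mem_univ i, mem_univ j, hij⟩ : (i, j) ∈ (univ : Finset ι).offDiag)
  have hr : ∀ i, ∃ s ∈ range p, (p : ℤ) ∣ α i * ((s : ℤ) + 0) + β i := fun i =>
    roots_exists hp _ _ _ (hx i)
  choose r hr1 hr2 using hr
  refine Finset.card_le_card_of_injOn r ?_ ?_
  · intro i hi
    rw [Finset.mem_coe, NT, mem_filter]
    refine ⟨hr1 i, i, hi, ?_⟩
    have := hr2 i
    rwa [add_zero] at this
  · intro i _ j _ h
    by_contra hij
    apply hd i j hij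
    have h1 := hr2 i
    have h2 := hr2 j
    rw [← h] at h2
    have e : α i * β j - α j * β i =
        α i * (α j * ((r i : ℤ) + 0) + β j) - α j * (α i * ((r i : ℤ) + 0) + β i) := by
      ring
    rw [e]
    exact Int.dvd_sub (Dvd.dvd.mul_left h2 _) (Dvd.dvd.mul_left h1 _)

omit [DecidableEq ι] in
lemma Om_eq_mid {z : ℕ} {α β : ι → ℤ} {Sb : Finset ι} {p : ℕ}
    (h1 : p ≤ z) : Om z α β Sb p = NT α β univ p := by
  classical
  rw [Om, NT]
  refine Finset.filter_congr fun s _ => ?_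
  simp only [Cd, h1, true_or, mem_univ, true_and]

omit [Fintype ι] [DecidableEq ι] in
lemma Om_eq_high {z : ℕ} {α β : ι → ℤ} {Sb : Finset ι} {p : ℕ}
    (h1 : z < p) : Om z α β Sb p = NT α β Sb p := by
  classical
  rw [Om, NT]
  refine Finset.filter_congr fun s _ => ?_
  simp only [Cd, not_le.2 h1, false_or]

omit [DecidableEq ι] in
lemma Om_card_le {z : ℕ} {α β : ι → ℤ} {Sb : Finset ι} {p : ℕ}
    (hp : p.Prime) (h : ∀ i, ¬ ((p : ℤ) ∣ α i ∧ (p : ℤ) ∣ β i)) :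
    (Om z α β Sb p).card ≤ Fintype.card ι := by
  classical
  rcases le_or_gt p z with h1 | h1
  · rw [Om_eq_mid h1, ← Finset.card_univ]
    exact NT_card_le univ hp h
  · rw [Om_eq_high h1]
    exact (NT_card_le Sb hp h).trans (Finset.card_le_univ _)

end forms

/-! ### The factors -/

lemma one_sub_pow_le {u : ℝ} (h0 : 0 ≤ u) (h1 : u ≤ 1) (s : ℕ) :
    (1 - u) ^ s ≤ 1 - s * u + (s : ℝ) ^ 2 * u ^ 2 := by
  induction s with
  | zero => simp
  | succ s ih =>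
    rw [pow_succ]
    have h2 := mul_le_mul_of_nonneg_right ih (by linarith : 0 ≤ 1 - u)
    refine h2.trans ?_
    push_cast
    have h3 : 0 ≤ (s : ℝ) ^ 2 * u ^ 3 := by positivity
    have h4 : 0 ≤ (s : ℝ) * u ^ 2 := by positivity
    have h5 : 0 ≤ u ^ 2 := by positivity
    nlinarith

lemma le_one_sub_pow {u : ℝ} (h1 : u ≤ 1) (s : ℕ) : 1 - s * u ≤ (1 - u) ^ s := by
  have := one_add_mul_le_pow (a := -u) (by linarith) s
  have e : (1 + -u) ^ s = (1 - u) ^ s := by ring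
  rw [e] at this
  linarith

lemma facA {k0 : ℕ} {p : ℝ} (hp : 2 * k0 + 1 ≤ p) {s : ℕ} (hs : s ≤ k0) :
    |(1 - s / p) / (1 - 1 / p) ^ s - 1| ≤ 2 * (k0 : ℝ) ^ 2 / p ^ 2 := by
  have hk0 : (0 : ℝ) ≤ k0 := Nat.cast_nonneg _
  have hp0 : 0 < p := by linarith
  obtain ⟨u, hu⟩ : ∃ u : ℝ, u = 1 / p := ⟨_, rfl⟩
  have hu0 : 0 ≤ u := by rw [hu]; positivity
  have hu1 : u ≤ 1 := by rw [hu, div_le_one hp0]; linarith
  have hku : (k0 : ℝ) * u ≤ 1 / 2 := by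
    rw [hu, mul_one_div, div_le_div_iff₀ hp0 (by norm_num)]
    linarith
  have hs' : (s : ℝ) ≤ k0 := by exact_mod_cast hs
  have hs0 : (0 : ℝ) ≤ s := Nat.cast_nonneg _
  have hsu : (s : ℝ) * u ≤ 1 / 2 := (mul_le_mul_of_nonneg_right hs' hu0).trans hku
  have e1 : (s : ℝ) / p = s * u := by rw [hu]; ring
  have e2 : 2 * (k0 : ℝ) ^ 2 / p ^ 2 = 2 * (k0 : ℝ) ^ 2 * u ^ 2 := by rw [hu]; ring
  rw [e1, e2, ← hu]
  have g1 := le_one_sub_pow hu1 s
  have g2 := one_sub_pow_le hu0 hu1 s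
  have hD0 : 0 < (1 - u) ^ s := by linarith
  have hD1 : (1 - u) ^ s ≤ 1 := pow_le_one₀ (by linarith) (by linarith)
  have hsk : (s : ℝ) ^ 2 * u ^ 2 ≤ (k0 : ℝ) ^ 2 * u ^ 2 := by
    gcongr
  rw [abs_le]
  constructor
  · have h1 : 1 - 2 * (k0 : ℝ) ^ 2 * u ^ 2 ≤ (1 - s * u) / (1 - u) ^ s := by
      rw [le_div_iff₀ hD0]
      by_cases hneg : 1 - 2 * (k0 : ℝ) ^ 2 * u ^ 2 ≤ 0
      · have : (1 - 2 * (k0 : ℝ) ^ 2 * u ^ 2) * (1 - u) ^ s ≤ 0 :=
          mul_nonpos_of_nonpos_of_nonneg hneg hD0.le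
        linarith
      · push Not at hneg
        calc (1 - 2 * (k0 : ℝ) ^ 2 * u ^ 2) * (1 - u) ^ s
            ≤ (1 - 2 * (k0 : ℝ) ^ 2 * u ^ 2) * (1 - s * u + (s : ℝ) ^ 2 * u ^ 2) :=
              mul_le_mul_of_nonneg_left g2 hneg.le
          _ ≤ 1 - s * u := by
              have h5 : 0 ≤ (k0 : ℝ) ^ 2 * u ^ 2 := by positivity
              have h6 : 0 ≤ (s : ℝ) ^ 2 * u ^ 2 := by positivity
              nlinarith [mul_nonneg h5 h6, mul_nonneg h5 (by linarith : 0 ≤ 1 / 2 - (s : ℝ) * u)]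
    linarith
  · have h1 : (1 - s * u) / (1 - u) ^ s ≤ 1 := by
      rw [div_le_one hD0]
      exact g1
    have : 0 ≤ 2 * (k0 : ℝ) ^ 2 * u ^ 2 := by positivity
    linarith

lemma facB {k0 : ℕ} {p : ℝ} (hp : 2 * k0 + 1 ≤ p) {s k : ℕ} (hs : s ≤ k0) (hk : k ≤ s) :
    |(1 - k / p) / (1 - 1 / p) ^ s - 1| ≤ 2 * (k0 : ℝ) / p := by
  have hk0 : (0 : ℝ) ≤ k0 := Nat.cast_nonneg _
  have hp0 : 0 < p := by linarith
  obtain ⟨u, hu⟩ : ∃ u : ℝ, u = 1 / p := ⟨_, rfl⟩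
  have hu0 : 0 ≤ u := by rw [hu]; positivity
  have hu1 : u ≤ 1 := by rw [hu, div_le_one hp0]; linarith
  have hku : (k0 : ℝ) * u ≤ 1 / 2 := by
    rw [hu, mul_one_div, div_le_div_iff₀ hp0 (by norm_num)]
    linarith
  have hs' : (s : ℝ) ≤ k0 := by exact_mod_cast hs
  have hk' : (k : ℝ) ≤ k0 := by exact_mod_cast hk.trans hs
  have hk'0 : (0 : ℝ) ≤ k := Nat.cast_nonneg _
  have hsu : (s : ℝ) * u ≤ k0 * u := mul_le_mul_of_nonneg_right hs' hu0
  have hku' : (k : ℝ) * u ≤ k0 * u := mul_le_mul_of_nonneg_right hk' hu0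
  have hku0 : 0 ≤ (k : ℝ) * u := by positivity
  have hk0u : 0 ≤ (k0 : ℝ) * u := by positivity
  have e1 : (k : ℝ) / p = k * u := by rw [hu]; ring
  have e2 : 2 * (k0 : ℝ) / p = 2 * (k0 * u) := by rw [hu]; ring
  rw [e1, e2, ← hu]
  have g1 := le_one_sub_pow hu1 s
  have hD0 : 0 < (1 - u) ^ s := by linarith
  have hD1 : (1 - u) ^ s ≤ 1 := pow_le_one₀ (by linarith) (by linarith)
  rw [abs_le]
  constructor
  · have h1 : 1 - k * u ≤ (1 - k * u) / (1 - u) ^ s := by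
      rw [le_div_iff₀ hD0]
      exact mul_le_of_le_one_right (by linarith) hD1
    linarith
  · rw [sub_le_iff_le_add, div_le_iff₀ hD0]
    have h2 : (2 * (k0 * u) + 1) * (1 - k0 * u) ≤ (2 * (k0 * u) + 1) * (1 - u) ^ s :=
      mul_le_mul_of_nonneg_left (by linarith) (by linarith)
    refine le_trans ?_ h2
    nlinarith

/-! ### `hqg` -/

lemma one_le_hq (K s : ℕ) (D : ℤ) : 1 ≤ hqg K s D :=
  one_le_prod_real _ _ fun p _ => by
    have : (0 : ℝ) ≤ (K : ℝ) / (p : ℝ) := by positivity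
    linarith

lemma prod_sub_le {K : ℕ} {A B : Finset ℕ} (h : A ⊆ B) :
    ∏ p ∈ A, (1 + (K : ℝ) / (p : ℝ)) ≤ ∏ p ∈ B, (1 + (K : ℝ) / (p : ℝ)) := by
  classical
  rw [← Finset.prod_sdiff h]
  have h1 : 1 ≤ ∏ p ∈ B \ A, (1 + (K : ℝ) / (p : ℝ)) := one_le_prod_real _ _ fun p _ => by
    have : (0 : ℝ) ≤ (K : ℝ) / (p : ℝ) := by positivity
    linarith
  have h2 : 0 ≤ ∏ p ∈ A, (1 + (K : ℝ) / (p : ℝ)) := Finset.prod_nonneg fun p _ => by positivity
  nlinarith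

lemma hq_mono {K y z : ℕ} (h : y ≤ z) (D : ℤ) : hqg K z D ≤ hqg K y D :=
  prod_sub_le fun p hp => by
    rw [mem_filter] at hp ⊢
    exact ⟨hp.1, lt_of_le_of_lt h hp.2⟩

open Classical in
lemma prod_ite_le_hq (K s z1 : ℕ) {D : ℤ} (hD : D ≠ 0) :
    ∏ p ∈ (Ioc s z1).filter Nat.Prime, (if (p : ℤ) ∣ D then 1 + (K : ℝ) / (p : ℝ) else 1) ≤
      hqg K s D := by
  rw [← Finset.prod_filter]
  refine prod_sub_le fun p hp => ?_
  rw [mem_filter, mem_filter, mem_Ioc] at hp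
  rw [mem_filter, Nat.mem_primeFactors]
  refine ⟨⟨hp.1.2, ?_, ?_⟩, hp.1.1.1⟩
  · exact Int.natCast_dvd.1 hp.2
  · rwa [Ne, Int.natAbs_eq_zero]

lemma prod_sq_le {A z z1 : ℕ} (hz1 : 1 ≤ z) (hz : 2 * A ≤ z) (h : z ≤ z1) :
    ∏ p ∈ (Ioc z z1).filter Nat.Prime, (1 + (A : ℝ) / (p : ℝ) ^ 2) ≤ 1 + 2 * A / (z : ℝ) := by
  have hz' : 2 * (A : ℝ) ≤ z := by exact_mod_cast hz
  have hz0 : (0 : ℝ) < z := by exact_mod_cast hz1
  calc ∏ p ∈ (Ioc z z1).filter Nat.Prime, (1 + (A : ℝ) / (p : ℝ) ^ 2)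
      ≤ ∏ p ∈ (Ioc z z1).filter Nat.Prime, Real.exp ((A : ℝ) / (p : ℝ) ^ 2) :=
        Finset.prod_le_prod (fun p _ => by positivity) (fun p _ => by
          rw [add_comm]; exact Real.add_one_le_exp _)
    _ = Real.exp (∑ p ∈ (Ioc z z1).filter Nat.Prime, (A : ℝ) / (p : ℝ) ^ 2) := by
        rw [Real.exp_sum]
    _ ≤ Real.exp (A / z) := by
        apply Real.exp_le_exp.2
        calc ∑ p ∈ (Ioc z z1).filter Nat.Prime, (A : ℝ) / (p : ℝ) ^ 2
            ≤ ∑ p ∈ Ioc z z1, (A : ℝ) / (p : ℝ) ^ 2 :=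
              Finset.sum_le_sum_of_subset_of_nonneg (filter_subset _ _)
                (fun p _ _ => by positivity)
          _ = A * ∑ p ∈ Ioc z z1, ((p : ℝ) ^ 2)⁻¹ := by
              rw [Finset.mul_sum]
              exact Finset.sum_congr rfl fun p _ => by rw [div_eq_mul_inv]
          _ ≤ A * ((z : ℝ)⁻¹ - (z1 : ℝ)⁻¹) := by
              gcongr
              exact sum_Ioc_inv_sq_le_sub (by omega) h
          _ ≤ A / z := by
              rw [div_eq_mul_inv]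
              have : (0 : ℝ) ≤ (z1 : ℝ)⁻¹ := by positivity
              gcongr
              linarith
    _ ≤ 1 + 2 * (A / z) := by
        apply exp_le_aux (by positivity)
        rw [div_le_iff₀ hz0]
        linarith
    _ = 1 + 2 * A / z := by ring

section est

variable {ι : Type} [Fintype ι] [DecidableEq ι]

/-- The product over the large primes. -/
lemma high_est {K z z1 : ℕ} {α β : ι → ℤ} (Sb : Finset ι) (hK : 2 * Fintype.card ι + 1 ≤ K)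
    (hKz : K ≤ z) (hz : 2 * (2 * Fintype.card ι ^ 2) ≤ z)
    (h : z ≤ z1) (hD : Dg α β ≠ 0)
    (hc : ∀ i, ∀ p : ℕ, p.Prime → z < p → ¬ ((p : ℤ) ∣ α i ∧ (p : ℤ) ∣ β i)) :
    |∏ p ∈ (Ioc z z1).filter Nat.Prime,
      (1 - ((NT α β Sb p).card : ℝ) / p) / (1 - 1 / (p : ℝ)) ^ Sb.card - 1| ≤
      (1 + 2 * (2 * Fintype.card ι ^ 2 : ℕ) / z) * hqg K z (Dg α β) - 1 := by
  classical
  obtain ⟨k0, hk0⟩ : ∃ k0, k0 = Fintype.card ι := ⟨_, rfl⟩
  rw [← hk0] at hK hz ⊢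
  have hSb : Sb.card ≤ k0 := by
    rw [hk0]
    exact Finset.card_le_univ Sb
  refine (abs_prod_sub_one _ _).trans (sub_le_sub_right ?_ 1)
  calc ∏ p ∈ (Ioc z z1).filter Nat.Prime,
      (1 + |(1 - ((NT α β Sb p).card : ℝ) / p) / (1 - 1 / (p : ℝ)) ^ Sb.card - 1|)
      ≤ ∏ p ∈ (Ioc z z1).filter Nat.Prime, ((1 + ((2 * k0 ^ 2 : ℕ) : ℝ) / (p : ℝ) ^ 2) *
        (if (p : ℤ) ∣ Dg α β then 1 + (K : ℝ) / (p : ℝ) else 1)) := by
        refine Finset.prod_le_prod (fun p _ => by positivity) fun p hp => ?_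
        rw [mem_filter, mem_Ioc] at hp
        have hp0 : (0 : ℝ) < p := by exact_mod_cast hp.2.pos
        have hp8 : 2 * (k0 : ℝ) + 1 ≤ p := by
          have : 2 * k0 + 1 ≤ p := by omega
          exact_mod_cast this
        have hle := NT_card_le (α := α) (β := β) Sb hp.2 (fun i => hc i p hp.2 hp.1.1)
        have h2 : (0 : ℝ) ≤ ((2 * k0 ^ 2 : ℕ) : ℝ) / (p : ℝ) ^ 2 := by positivity
        split_ifs with hd
        · have h1 := facB hp8 hSb hle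
          have h3 : 2 * (k0 : ℝ) / p ≤ (K : ℝ) / (p : ℝ) := by
            gcongr
            have : 2 * k0 ≤ K := by omega
            exact_mod_cast this
          have h4 : (0 : ℝ) ≤ (K : ℝ) / (p : ℝ) := by positivity
          nlinarith [mul_nonneg h2 h4]
        · have hge := le_NT_card (α := α) (β := β) Sb hp.2 hd
          rw [le_antisymm hle hge, mul_one]
          have h1 := facA hp8 hSb
          push_cast
          linarith
    _ = (∏ p ∈ (Ioc z z1).filter Nat.Prime, (1 + ((2 * k0 ^ 2 : ℕ) : ℝ) / (p : ℝ) ^ 2)) *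
        ∏ p ∈ (Ioc z z1).filter Nat.Prime,
          (if (p : ℤ) ∣ Dg α β then 1 + (K : ℝ) / (p : ℝ) else 1) := Finset.prod_mul_distrib
    _ ≤ (1 + 2 * (2 * k0 ^ 2 : ℕ) / z) * hqg K z (Dg α β) := by
        refine mul_le_mul (prod_sq_le (by omega) hz h) (prod_ite_le_hq K z z1 hD) ?_
          (by positivity)
        exact Finset.prod_nonneg fun p _ => by split_ifs <;> positivity

/-- The product over the middle primes. -/
lemma mid_est {K y z : ℕ} {α β : ι → ℤ} (hK : 2 * Fintype.card ι + 1 ≤ K)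
    (hKy : K ≤ y) (hD : Dg α β ≠ 0)
    (hc : ∀ i, ∀ p : ℕ, p.Prime → y < p → ¬ ((p : ℤ) ∣ α i ∧ (p : ℤ) ∣ β i)) :
    ∏ p ∈ (Ioc y z).filter Nat.Prime,
      (1 - ((NT α β univ p).card : ℝ) / p) / (1 - 1 / (p : ℝ)) ^ Fintype.card ι ≤
      hqg K y (Dg α β) := by
  classical
  obtain ⟨k0, hk0⟩ : ∃ k0, k0 = Fintype.card ι := ⟨_, rfl⟩
  rw [← hk0] at hK ⊢
  refine le_trans ?_ (prod_ite_le_hq K y z hD)
  refine Finset.prod_le_prod (fun p hp => ?_) fun p hp => ?_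
  · rw [mem_filter, mem_Ioc] at hp
    have h1 : (NT α β univ p).card ≤ p := by
      calc _ ≤ (range p).card := card_le_card (filter_subset _ _)
        _ = p := card_range p
    have hp0 : (0 : ℝ) < p := by exact_mod_cast hp.2.pos
    have h2 : ((NT α β univ p).card : ℝ) / p ≤ 1 := by
      rw [div_le_one hp0]
      exact_mod_cast h1
    exact div_nonneg (by linarith) (pow_nonneg (fac_pos hp.2).le _)
  · rw [mem_filter, mem_Ioc] at hp
    have hp0 : (0 : ℝ) < p := by exact_mod_cast hp.2.pos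
    have hp8 : 2 * (k0 : ℝ) + 1 ≤ p := by
      have : 2 * k0 + 1 ≤ p := by omega
      exact_mod_cast this
    have hle := NT_card_le (α := α) (β := β) univ hp.2 (fun i => hc i p hp.2 hp.1.1)
    rw [Finset.card_univ, ← hk0] at hle
    by_cases hd : (p : ℤ) ∣ Dg α β
    · rw [if_pos hd]
      have h1 := (abs_le.1 (facB hp8 le_rfl hle)).2
      have h3 : 2 * (k0 : ℝ) / p ≤ (K : ℝ) / (p : ℝ) := by
        gcongr
        have : 2 * k0 ≤ K := by omega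
        exact_mod_cast this
      linarith
    · rw [if_neg hd]
      have hge := le_NT_card (α := α) (β := β) univ hp.2 hd
      rw [Finset.card_univ, ← hk0] at hge
      rw [le_antisymm hle hge, div_le_one (pow_pos (fac_pos hp.2) _)]
      have hu1 : 1 / (p : ℝ) ≤ 1 := by
        rw [div_le_one hp0]
        exact_mod_cast hp.2.one_lt.le
      have := le_one_sub_pow hu1 k0
      have e : (k0 : ℝ) / p = k0 * (1 / p) := by ring
      rw [e]
      exact this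

/-! ### Expansion -/

open Classical in
lemma ind_eq {y z z1 : ℕ} {α β : ι → ℤ} (Sb : Finset ι) (hz : z ≤ z1) (t : ℤ) :
    (∏ i ∈ Sb, lzy y z1 (α i * t + β i)) * ∏ i ∈ univ \ Sb, lzy y z (α i * t + β i) =
      if (∀ p : ℕ, p.Prime → y < p → p ≤ z1 → ¬ Cd z α β Sb p t) then
        ((∏ _i ∈ Sb, (VW y z1)⁻¹) * ∏ _i ∈ univ \ Sb, (VW y z)⁻¹) else 0 := by
  split_ifs with h
  · have h2 : ∀ i ∈ Sb, lzy y z1 (α i * t + β i) = (VW y z1)⁻¹ := by
      intro i hi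
      rw [lzy, rg, if_pos, one_mul]
      intro p hp hy hz hd
      exact h p hp hy hz ⟨i, Or.inr hi, hd⟩
    have h3 : ∀ i ∈ univ \ Sb, lzy y z (α i * t + β i) = (VW y z)⁻¹ := by
      intro i _
      rw [lzy, rg, if_pos, one_mul]
      intro p hp hy hz' hd
      exact h p hp hy (hz'.trans hz) ⟨i, Or.inl hz', hd⟩
    rw [Finset.prod_congr rfl h2, Finset.prod_congr rfl h3]
  · push Not at h
    obtain ⟨p, hp, hpy, hpz, i, hi, hd⟩ := h
    by_cases hiS : i ∈ Sb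
    · have : ∏ i ∈ Sb, lzy y z1 (α i * t + β i) = 0 := Finset.prod_eq_zero hiS (by
        rw [lzy, rg, if_neg, zero_mul]
        intro hR
        exact hR p hp hpy hpz hd)
      rw [this, zero_mul]
    · have hpz' : p ≤ z := hi.resolve_right hiS
      have : ∏ i ∈ univ \ Sb, lzy y z (α i * t + β i) = 0 :=
        Finset.prod_eq_zero (mem_sdiff.2 ⟨mem_univ i, hiS⟩) (by
          rw [lzy, rg, if_neg, zero_mul]
          intro hR
          exact hR p hp hpy hpz' hd)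
      rw [this, mul_zero]

lemma expand (y z z1 : ℕ) (α β : ι → ℤ) (t : ℤ) :
    ∏ i, dzy y z z1 (α i * t + β i) =
      ∑ Sb ∈ (univ : Finset ι).powerset, (∏ _i ∈ univ \ Sb, (-1 : ℝ)) *
        ((∏ i ∈ Sb, lzy y z1 (α i * t + β i)) *
          ∏ i ∈ univ \ Sb, lzy y z (α i * t + β i)) := by
  have h : ∀ i, dzy y z z1 (α i * t + β i) =
      lzy y z1 (α i * t + β i) + (-1) * lzy y z (α i * t + β i) := by
    intro i
    rw [dzy]; ring
  rw [Finset.prod_congr rfl (fun i _ => h i), Finset.prod_add]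
  refine Finset.sum_congr rfl fun Sb _ => ?_
  rw [Finset.prod_mul_distrib]; ring

/-- the weight of a subset -/
def wt (y z z1 : ℕ) (Sb : Finset ι) : ℝ :=
  (∏ _i ∈ Sb, (VW y z1)⁻¹) * ∏ _i ∈ univ \ Sb, (VW y z)⁻¹

lemma wt_eq {y z z1 : ℕ} (hy : y ≤ z) (h : z ≤ z1) (Sb : Finset ι) :
    wt y z z1 Sb = (VW y z)⁻¹ ^ Fintype.card ι * ((VW z z1) ^ Sb.card)⁻¹ := by
  have h0 := VW_pos y z
  have h1 := VW_pos z z1
  have hc : (univ \ Sb).card + Sb.card = Fintype.card ι := by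
    rw [Finset.card_sdiff_add_card_eq_card (subset_univ Sb), Finset.card_univ]
  have e4 : (VW y z)⁻¹ ^ Fintype.card ι = (VW y z)⁻¹ ^ (univ \ Sb).card * (VW y z)⁻¹ ^ Sb.card := by
    rw [← pow_add, hc]
  rw [wt, Finset.prod_const, Finset.prod_const, VW_split hy h, mul_inv, mul_pow,
    e4, inv_pow (VW z z1)]
  ring

lemma wt_le {y z z1 : ℕ} (hy : y ≤ z) (h : z ≤ z1) (Sb : Finset ι) :
    wt y z z1 Sb ≤ (VW 0 z1)⁻¹ ^ Fintype.card ι := by
  have h0 := VW_pos y z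
  have h1 := VW_pos y z1
  have h2 := VW_pos 0 z1
  have hle1 : (VW y z1)⁻¹ ≤ (VW 0 z1)⁻¹ := by
    apply inv_anti₀ h2
    rw [VW_split (Nat.zero_le y) (hy.trans h)]
    exact mul_le_of_le_one_left h1.le (VW_le_one _ _)
  have hle : (VW y z)⁻¹ ≤ (VW y z1)⁻¹ := by
    apply inv_anti₀ h1
    rw [VW_split hy h]
    exact mul_le_of_le_one_right h0.le (VW_le_one _ _)
  have hc : (univ \ Sb).card + Sb.card = Fintype.card ι := by
    rw [Finset.card_sdiff_add_card_eq_card (subset_univ Sb), Finset.card_univ]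
  have e4 : (VW 0 z1)⁻¹ ^ Fintype.card ι =
      (VW 0 z1)⁻¹ ^ Sb.card * (VW 0 z1)⁻¹ ^ (univ \ Sb).card := by
    rw [← pow_add, add_comm, hc]
  rw [wt, Finset.prod_const, Finset.prod_const, e4]
  have hi0 : 0 ≤ (VW y z)⁻¹ := inv_nonneg.2 h0.le
  have hi1 : 0 ≤ (VW y z1)⁻¹ := inv_nonneg.2 h1.le
  have hi2 : 0 ≤ (VW 0 z1)⁻¹ := inv_nonneg.2 h2.le
  exact mul_le_mul (pow_le_pow_left₀ hi1 hle1 _) (pow_le_pow_left₀ hi0 (hle.trans hle1) _)
    (pow_nonneg hi0 _) (pow_nonneg hi2 _)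

lemma wt_nonneg (y z z1 : ℕ) (Sb : Finset ι) : 0 ≤ wt y z z1 Sb := by
  have h0 := VW_pos y z
  have h1 := VW_pos y z1
  rw [wt]
  positivity

/-- the local density at the primes `≤ z` -/
def G0 (y z : ℕ) (α β : ι → ℤ) : ℝ :=
  ∏ p ∈ (Ioc y z).filter Nat.Prime,
    (1 - ((NT α β univ p).card : ℝ) / p) / (1 - 1 / (p : ℝ)) ^ Fintype.card ι

omit [DecidableEq ι] in
lemma G0_nonneg (y z : ℕ) (α β : ι → ℤ) : 0 ≤ G0 y z α β :=
  Finset.prod_nonneg fun p hp => by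
    rw [mem_filter, mem_Ioc] at hp
    have h1 : (NT α β univ p).card ≤ p := by
      calc _ ≤ (range p).card := card_le_card (filter_subset _ _)
        _ = p := card_range p
    have hp0 : (0 : ℝ) < p := by exact_mod_cast hp.2.pos
    have h2 : ((NT α β univ p).card : ℝ) / p ≤ 1 := by
      rw [div_le_one hp0]
      exact_mod_cast h1
    exact div_nonneg (by linarith) (pow_nonneg (fac_pos hp.2).le _)

/-- the product over the large primes -/
def PS (z z1 : ℕ) (α β : ι → ℤ) (Sb : Finset ι) : ℝ :=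
  ∏ p ∈ (Ioc z z1).filter Nat.Prime,
      (1 - ((NT α β Sb p).card : ℝ) / p) / (1 - 1 / (p : ℝ)) ^ Sb.card

lemma wt_mul {y z z1 : ℕ} {α β : ι → ℤ} (Sb : Finset ι) (hyz : y ≤ z) (h : z ≤ z1) :
    wt y z z1 Sb * ∏ p ∈ (Ioc y z1).filter Nat.Prime,
      (1 - ((Om z α β Sb p).card : ℝ) / p) = G0 y z α β * PS z z1 α β Sb := by
  have e1 : ∏ p ∈ (Ioc y z).filter Nat.Prime, (1 - ((Om z α β Sb p).card : ℝ) / p) =
      ∏ p ∈ (Ioc y z).filter Nat.Prime, (1 - ((NT α β univ p).card : ℝ) / p) :=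
    Finset.prod_congr rfl fun p hp => by
      rw [Om_eq_mid (mem_Ioc.1 (mem_filter.1 hp).1).2]
  have e2 : ∏ p ∈ (Ioc z z1).filter Nat.Prime, (1 - ((Om z α β Sb p).card : ℝ) / p) =
      ∏ p ∈ (Ioc z z1).filter Nat.Prime, (1 - ((NT α β Sb p).card : ℝ) / p) :=
    Finset.prod_congr rfl fun p hp => by
      rw [Om_eq_high (mem_Ioc.1 (mem_filter.1 hp).1).1]
  have e3 : ∏ p ∈ (Ioc z z1).filter Nat.Prime, (1 - 1 / (p : ℝ)) = VW z z1 := rfl
  have e4 : ∏ p ∈ (Ioc y z).filter Nat.Prime, (1 - 1 / (p : ℝ)) = VW y z := rfl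
  rw [wt_eq hyz h, prod_split _ hyz h, PS, G0, Finset.prod_div_distrib, Finset.prod_div_distrib,
    Finset.prod_pow, Finset.prod_pow, e1, e2, e3, e4, div_eq_mul_inv, div_eq_mul_inv, inv_pow]
  ring

end est

/-- FLB. -/
theorem t_FLB (h1 : Pool.Agent.N728.QG.S_FLC) (h2 : S_MER) : Pool.Agent.N728.QG.S_FLB := by
  classical
  intro k0
  obtain ⟨K0, hK0, hF⟩ := h1 k0
  obtain ⟨C, hC1, -, hC⟩ := h2
  obtain ⟨N, hN⟩ := exists_nat_ge (2 ^ k0 * C ^ k0)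
  obtain ⟨K, hK⟩ : ∃ K : ℕ, K = K0 + k0 + 1 + N + 2 + 2 ^ k0 * (4 * k0 ^ 2 + 2) + 4 * k0 ^ 2 +
    2 * k0 + 1 := ⟨_, rfl⟩
  refine ⟨K, by omega, ?_⟩
  intro ι _ _ hcard hk1 b y z z1 α β J1 J2 hKb hKy hyz hzz1 hJ hc hD
  have hL : 0 ≤ (J2 : ℝ) - J1 := by
    have : (J1 : ℝ) ≤ J2 := by exact_mod_cast hJ
    linarith
  have hqy := one_le_hq K y (Dg α β)
  have hqz := one_le_hq K z (Dg α β)
  have hqzy := hq_mono (K := K) hyz (Dg α β)
  have hKz : K ≤ z := hKy.trans hyz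
  have hz0 : (0 : ℝ) < z := by
    have : 0 < z := by omega
    exact_mod_cast this
  have hz1 : 2 ≤ z1 := by omega
  obtain ⟨G, hG⟩ : ∃ G : ℝ, G = G0 y z α β := ⟨_, rfl⟩
  have hG0 : 0 ≤ G := by
    rw [hG]
    exact G0_nonneg _ _ _ _
  have hGle : G ≤ hqg K y (Dg α β) := by
    rw [hG]
    exact mid_est (by rw [hcard]; omega) hKy hD hc
  set δ : ℝ := (1 + 2 * (2 * k0 ^ 2 : ℕ) / z) * hqg K z (Dg α β) - 1 with hδ
  have hPS : ∀ Sb, |PS z z1 α β Sb - 1| ≤ δ := by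
    intro Sb
    have := high_est (K := K) (z := z) (z1 := z1) (α := α) (β := β) Sb (by rw [hcard]; omega) hKz
      (by rw [hcard]; omega) hzz1 hD
      (fun i p hp h => hc i p hp (lt_of_le_of_lt hyz h))
    rw [hcard] at this
    exact this
  have hPSle : ∀ Sb, PS z z1 α β Sb ≤ 2 * hqg K z (Dg α β) := by
    intro Sb
    have h3 := (abs_le.1 (hPS Sb)).2
    have h4 : 2 * ((2 * k0 ^ 2 : ℕ) : ℝ) / (z : ℝ) ≤ 1 := by
      rw [div_le_one hz0]
      have : 2 * (2 * k0 ^ 2) ≤ z := by omega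
      exact_mod_cast this
    rw [hδ] at h3
    nlinarith
  -- the count
  let cnt : Finset ι → ℝ := fun Sb => (((Ioc J1 J2).filter (fun t : ℤ =>
    ∀ p : ℕ, p.Prime → y < p → p ≤ z1 → (t % p).toNat ∉ Om z α β Sb p)).card : ℝ)
  have hcnt : ∀ Sb, |wt y z z1 Sb * cnt Sb - ((J2 : ℝ) - J1) * (G * PS z z1 α β Sb)| ≤
      (1 / 2 : ℝ) ^ b * (((J2 : ℝ) - J1) * (G * PS z z1 α β Sb)) +
        (VW 0 z1)⁻¹ ^ k0 * (z1 : ℝ) ^ (K0 * b) := by
    intro Sb
    have h3 := hF b y z1 (Om z α β Sb) J1 J2 (by omega) (by omega) (hyz.trans hzz1)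
      (fun p hp hyp _ => ⟨filter_subset _ _, by
        rw [← hcard]
        exact Om_card_le hp (fun i => hc i p hp hyp)⟩) hJ
    have h4 := wt_mul (α := α) (β := β) Sb hyz hzz1
    rw [← hG] at h4
    rw [← h4]
    have h5 := mul_le_mul_of_nonneg_left h3 (wt_nonneg y z z1 Sb)
    rw [← abs_of_nonneg (wt_nonneg y z z1 Sb), ← abs_mul,
      abs_of_nonneg (wt_nonneg y z z1 Sb)] at h5
    have h6 : wt y z z1 Sb * (z1 : ℝ) ^ (K0 * b) ≤ (VW 0 z1)⁻¹ ^ k0 * (z1 : ℝ) ^ (K0 * b) := by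
      have h7 := wt_le hyz hzz1 Sb
      rw [hcard] at h7
      exact mul_le_mul_of_nonneg_right h7 (by positivity)
    refine le_trans (le_of_eq ?_) (h5.trans (le_trans (le_of_eq ?_) (add_le_add_right h6 _)))
    · congr 1
      simp only [cnt]
      ring
    · ring
  -- the sum
  have hsum : ∑ t ∈ Ioc J1 J2, ∏ i, dzy y z z1 (α i * t + β i) =
      ∑ Sb ∈ (univ : Finset ι).powerset, (∏ _i ∈ univ \ Sb, (-1 : ℝ)) *
        (wt y z z1 Sb * cnt Sb) := by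
    rw [Finset.sum_congr rfl fun t _ => expand y z z1 α β t, Finset.sum_comm]
    refine Finset.sum_congr rfl fun Sb _ => ?_
    rw [← Finset.mul_sum]
    congr 1
    rw [Finset.sum_congr rfl fun t _ => ind_eq Sb hzz1 t, ← Finset.sum_filter,
      Finset.sum_const, nsmul_eq_mul, mul_comm, wt]
    congr 1
    simp only [cnt]
    congr 2
    refine Finset.filter_congr fun t _ => ?_
    exact forall_congr' fun p => forall_congr' fun hp => forall_congr' fun _ =>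
      forall_congr' fun _ => (not_mem_Om hp.pos t).symm
  have hsgn : ∑ Sb ∈ (univ : Finset ι).powerset, (∏ _i ∈ univ \ Sb, (-1 : ℝ)) = 0 := by
    have := Finset.prod_add (fun _ : ι => (1 : ℝ)) (fun _ => -1) univ
    simp only [Finset.prod_const_one, one_mul] at this
    rw [← this]
    have hne : Fintype.card ι ≠ 0 := by omega
    simp [Finset.prod_const, Finset.card_univ, hne]
  have habs : ∀ Sb : Finset ι, |∏ _i ∈ univ \ Sb, (-1 : ℝ)| = 1 := by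
    intro Sb
    rw [Finset.prod_const, abs_pow, abs_neg, abs_one, one_pow]
  have hfin : |∑ t ∈ Ioc J1 J2, ∏ i, dzy y z z1 (α i * t + β i)| ≤
      2 ^ k0 * ((1 / 2 : ℝ) ^ b * (((J2 : ℝ) - J1) * (G * (2 * hqg K z (Dg α β)))) +
        (VW 0 z1)⁻¹ ^ k0 * (z1 : ℝ) ^ (K0 * b) + ((J2 : ℝ) - J1) * G * δ) := by
    have e : ∑ t ∈ Ioc J1 J2, ∏ i, dzy y z z1 (α i * t + β i) =
        ∑ Sb ∈ (univ : Finset ι).powerset, (∏ _i ∈ univ \ Sb, (-1 : ℝ)) *
          (wt y z z1 Sb * cnt Sb - ((J2 : ℝ) - J1) * G) := by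
      rw [hsum]
      simp only [mul_sub]
      rw [Finset.sum_sub_distrib, ← Finset.sum_mul, hsgn]
      ring
    rw [e]
    refine (Finset.abs_sum_le_sum_abs _ _).trans ?_
    have hcard2 : ((univ : Finset ι).powerset.card : ℝ) = 2 ^ k0 := by
      rw [Finset.card_powerset, Finset.card_univ, hcard]; norm_num
    rw [← hcard2, ← nsmul_eq_mul]
    refine Finset.sum_le_card_nsmul _ _ _ fun Sb _ => ?_
    rw [abs_mul, habs, one_mul]
    have h3 := hcnt Sb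
    have h4 := hPS Sb
    have h5 := hPSle Sb
    have e2 : wt y z z1 Sb * cnt Sb - ((J2 : ℝ) - J1) * G =
        (wt y z z1 Sb * cnt Sb - ((J2 : ℝ) - J1) * (G * PS z z1 α β Sb)) +
        ((J2 : ℝ) - J1) * G * (PS z z1 α β Sb - 1) := by ring
    rw [e2]
    refine (abs_add_le _ _).trans (add_le_add (h3.trans (add_le_add_left ?_ _)) ?_)
    · gcongr
    · rw [abs_mul, abs_of_nonneg (mul_nonneg hL hG0)]
      gcongr
  refine hfin.trans ?_
  -- the error term with `z1`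
  have hz1z : (z1 : ℝ) ≥ 1 := by exact_mod_cast (by omega : 1 ≤ z1)
  have hV1 : (VW 0 z1)⁻¹ ≤ C * z1 := by
    refine (hC z1 hz1).2.trans ?_
    gcongr
    have := Real.log_le_sub_one_of_pos (show (0 : ℝ) < z1 by linarith)
    linarith
  have herr : 2 ^ k0 * ((VW 0 z1)⁻¹ ^ k0 * (z1 : ℝ) ^ (K0 * b)) ≤ (z1 : ℝ) ^ (K * b) := by
    have h3 : (VW 0 z1)⁻¹ ^ k0 ≤ (C * z1) ^ k0 :=
      pow_le_pow_left₀ (inv_nonneg.2 (VW_pos 0 z1).le) hV1 k0
    have h4 : 2 ^ k0 * C ^ k0 ≤ z1 := by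
      have : (N : ℝ) ≤ z1 := by exact_mod_cast (by omega : N ≤ z1)
      linarith
    calc 2 ^ k0 * ((VW 0 z1)⁻¹ ^ k0 * (z1 : ℝ) ^ (K0 * b))
        ≤ 2 ^ k0 * ((C * z1) ^ k0 * (z1 : ℝ) ^ (K0 * b)) := by gcongr
      _ = (2 ^ k0 * C ^ k0) * ((z1 : ℝ) ^ k0 * (z1 : ℝ) ^ (K0 * b)) := by rw [mul_pow]; ring
      _ ≤ z1 * ((z1 : ℝ) ^ k0 * (z1 : ℝ) ^ (K0 * b)) := by gcongr
      _ = (z1 : ℝ) ^ (1 + k0 + K0 * b) := by rw [pow_add, pow_add, pow_one]; ring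
      _ ≤ (z1 : ℝ) ^ (K * b) := by
          apply pow_le_pow_right₀ hz1z
          have hb : 1 ≤ b := by omega
          have h5 : (K0 + k0 + 1) * b ≤ K * b := Nat.mul_le_mul_right b (by omega)
          nlinarith
  -- the main terms
  obtain ⟨Q, hQ⟩ : ∃ Q : ℝ, Q = hqg K y (Dg α β) := ⟨_, rfl⟩
  obtain ⟨R, hR⟩ : ∃ R : ℝ, R = hqg K z (Dg α β) := ⟨_, rfl⟩
  obtain ⟨L, hLL⟩ : ∃ L : ℝ, L = (J2 : ℝ) - J1 := ⟨_, rfl⟩
  obtain ⟨e, he⟩ : ∃ e : ℝ, e = (1 / 2 : ℝ) ^ b := ⟨_, rfl⟩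
  obtain ⟨r, hr⟩ : ∃ r : ℝ, r = 1 / (z : ℝ) := ⟨_, rfl⟩
  have he0 : 0 ≤ e := by rw [he]; positivity
  have hr0 : 0 ≤ r := by rw [hr]; positivity
  have hδ' : δ = (R - 1) + 4 * (k0 : ℝ) ^ 2 * r * R := by
    rw [hδ, hR, hr]; push_cast; ring
  rw [← hQ] at hGle
  rw [← hQ] at hqy hqzy
  rw [← hR] at hqz hqzy
  rw [← hLL] at hL
  rw [hδ', ← hQ, ← hR, ← hLL, ← he, ← hr]
  have hR1 : 0 ≤ R - 1 := by linarith
  have hQ0 : 0 ≤ Q := by linarith
  have hR0 : 0 ≤ R := by linarith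
  have hKr : 2 ^ k0 * (4 * (k0 : ℝ) ^ 2 + 2) ≤ K := by
    have : 2 ^ k0 * (4 * k0 ^ 2 + 2) ≤ K := by omega
    exact_mod_cast this
  have hX : 0 ≤ L * (Q ^ 2 * (e + r) + Q * (R - 1)) := by positivity
  have hk2 : (0 : ℝ) ≤ 4 * (k0 : ℝ) ^ 2 := by positivity
  have hmain : 2 ^ k0 * (e * (L * (G * (2 * R))) + L * G * ((R - 1) + 4 * (k0 : ℝ) ^ 2 * r * R)) ≤
      2 ^ k0 * (4 * (k0 : ℝ) ^ 2 + 2) * (L * (Q ^ 2 * (e + r) + Q * (R - 1))) := by
    calc 2 ^ k0 * (e * (L * (G * (2 * R))) + L * G * ((R - 1) + 4 * (k0 : ℝ) ^ 2 * r * R))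
        ≤ 2 ^ k0 * (e * (L * (Q * (2 * Q))) +
          L * Q * ((R - 1) + 4 * (k0 : ℝ) ^ 2 * r * Q)) := by gcongr
      _ = 2 ^ k0 * (L * (2 * (Q ^ 2 * e) + 4 * (k0 : ℝ) ^ 2 * (Q ^ 2 * r) + 1 * (Q * (R - 1)))) := by
          ring
      _ ≤ 2 ^ k0 * (L * ((4 * (k0 : ℝ) ^ 2 + 2) * (Q ^ 2 * e) +
          (4 * (k0 : ℝ) ^ 2 + 2) * (Q ^ 2 * r) +
          (4 * (k0 : ℝ) ^ 2 + 2) * (Q * (R - 1)))) := by
          gcongr <;> linarith
      _ = _ := by ring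
  have hfinal : 2 ^ k0 * (4 * (k0 : ℝ) ^ 2 + 2) * (L * (Q ^ 2 * (e + r) + Q * (R - 1))) ≤
      K * L * (Q ^ 2 * (e + r) + Q * (R - 1)) := by
    have := mul_le_mul_of_nonneg_right hKr hX
    linarith
  linarith

end

end Pool.Agent.N273.QG
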